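import Pool.Agent.Helper46.DC.Defs
import Pool.Agent.Helper18.DC.DC1
import Pool.Agent.Helper70.DC.Toggle

set_option autoImplicit false

/-!
DC-7 of the project MP_6bc104_co (owner helper46): the join complex `JJ Γ` is acyclic in all degrees
smaller than the number of players with a nonempty list.
-/

namespace Pool.Agent.DC

open Finset

section

variable {P ι : Type}

theorem JJ_subset31 {Γ : P → ι → Prop} {S T : Finset (P × ι)} (h : T ⊆ S) (hS : S ∈ JJ Γ) :
    T ∈ JJ Γ :=
  ⟨fun p j j' h1 h2 => hS.1 p j j' (h h1) (h h2), fun p j h1 => hS.2 p j (h h1)⟩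

theorem closed_empty31 {α : Type} (K : Cx α) : Closed K (∅ : Set α) := by
  intro c hc a ha
  exfalso
  have h0 : c = 0 := by
    funext x
    by_contra hx
    exact hc x hx
  have h1 : K.D 0 = 0 := by
    have h2 := K.D_add 0 0
    have h3 : K.D 0 = K.D 0 + K.D 0 := by simpa using h2
    funext x
    have h4 := congrFun h3 x
    simp only [Pi.add_apply] at h4
    have h5 : K.D 0 x + 0 = K.D 0 x + K.D 0 x := by rw [add_zero]; exact h4
    exact (add_left_cancel h5).symm
  rw [h0, h1] at ha
  exact ha rfl

variable [Fintype P] [DecidableEq P] [Fintype ι] [DecidableEq ι]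

theorem closed_JJ31 (K : Cx (Finset (P × ι))) (hK : IsSimp K) (Γ : P → ι → Prop) :
    Closed K (JJ Γ) := by
  intro c hc S hS
  rw [hK.1] at hS
  obtain ⟨e, he, hne⟩ := Finset.exists_ne_zero_of_sum_ne_zero hS
  exact JJ_subset31 (Finset.subset_insert e S) (hc _ hne)

/-- `Γ` with the labels of the player `p` restricted to `F`. -/
def restr31 (Γ : P → ι → Prop) (p : P) (F : Finset ι) : P → ι → Prop :=
  fun q j => Γ q j ∧ (q = p → j ∈ F)

theorem relAc_single31 (K : Cx (Finset (P × ι))) (hK : IsSimp K) (Γ : P → ι → Prop) (p : P)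
    (j : ι) (hj : Γ p j) (d : ℕ) : RelAc K d (JJ (restr31 Γ p {j})) ∅ := by
  apply relAc_toggle K _ _ (closed_JJ31 K hK _) (Set.empty_subset _) (p, j)
  · intro c A _ _
    exact hK.1 c A
  · intro A _ _ q hq
    rw [hK.2, hK.2, Finset.card_insert_of_notMem hq]
  · intro A hA _
    constructor
    · intro q i i' h1 h2
      rw [Finset.mem_insert] at h1 h2
      rcases h1 with h1 | h1
      · rcases h2 with h2 | h2
        · rw [Prod.mk.injEq] at h1 h2
          rw [h1.2, h2.2]
        · rw [Prod.mk.injEq] at h1
          have h3 := (hA.2 q i' h2).2 h1.1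
          rw [Finset.mem_singleton] at h3
          rw [h1.2, h3]
      · rcases h2 with h2 | h2
        · rw [Prod.mk.injEq] at h2
          have h3 := (hA.2 q i h1).2 h2.1
          rw [Finset.mem_singleton] at h3
          rw [h2.2, h3]
        · exact hA.1 q i i' h1 h2
    · intro q i h1
      rw [Finset.mem_insert] at h1
      rcases h1 with h1 | h1
      · rw [Prod.mk.injEq] at h1
        rw [h1.1, h1.2]
        exact ⟨hj, fun _ => Finset.mem_singleton_self j⟩
      · exact hA.2 q i h1
  · intro A hA _
    exact ⟨JJ_subset31 (Finset.erase_subset _ _) hA, fun h => h⟩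
  · intro A _ _ q h
    exact h

theorem JJ_union31 (Γ : P → ι → Prop) (p : P) (F : Finset ι) (j : ι) :
    JJ (restr31 Γ p (insert j F)) = JJ (restr31 Γ p F) ∪ JJ (restr31 Γ p {j}) := by
  ext S
  constructor
  · intro hS
    by_cases h : (p, j) ∈ S
    · right
      refine ⟨hS.1, fun q i hi => ⟨(hS.2 q i hi).1, ?_⟩⟩
      intro hq
      rw [hq] at hi
      rw [Finset.mem_singleton]
      exact hS.1 p i j hi h
    · left
      refine ⟨hS.1, fun q i hi => ⟨(hS.2 q i hi).1, ?_⟩⟩
      intro hq
      have h1 := (hS.2 q i hi).2 hq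
      rw [Finset.mem_insert] at h1
      rcases h1 with h1 | h1
      · exfalso
        apply h
        rw [← h1, ← hq]
        exact hi
      · exact h1
  · rintro (hS | hS)
    · exact ⟨hS.1, fun q i hi => ⟨(hS.2 q i hi).1,
        fun hq => Finset.mem_insert_of_mem ((hS.2 q i hi).2 hq)⟩⟩
    · refine ⟨hS.1, fun q i hi => ⟨(hS.2 q i hi).1, fun hq => ?_⟩⟩
      have h1 := (hS.2 q i hi).2 hq
      rw [Finset.mem_singleton] at h1
      rw [h1]
      exact Finset.mem_insert_self j F

theorem JJ_inter31 (Γ : P → ι → Prop) (p : P) (F : Finset ι) (j : ι) (hj : j ∉ F) :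
    JJ (restr31 Γ p F) ∩ JJ (restr31 Γ p {j}) = JJ (restr31 Γ p ∅) := by
  ext S
  constructor
  · rintro ⟨h1, h2⟩
    refine ⟨h1.1, fun q i hi => ⟨(h1.2 q i hi).1, fun hq => ?_⟩⟩
    exfalso
    have h3 := (h1.2 q i hi).2 hq
    have h4 := (h2.2 q i hi).2 hq
    rw [Finset.mem_singleton] at h4
    rw [h4] at h3
    exact hj h3
  · intro h
    constructor
    · exact ⟨h.1, fun q i hi => ⟨(h.2 q i hi).1,
        fun hq => absurd ((h.2 q i hi).2 hq) (Finset.notMem_empty _)⟩⟩
    · exact ⟨h.1, fun q i hi => ⟨(h.2 q i hi).1,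
        fun hq => absurd ((h.2 q i hi).2 hq) (Finset.notMem_empty _)⟩⟩

end

theorem relAc_join {P ι : Type} [Fintype P] [DecidableEq P] [Fintype ι] [DecidableEq ι]
    (K : Cx (Finset (P × ι))) (hK : IsSimp K) (Γ : P → ι → Prop) (A : Finset P)
    (hA : ∀ p ∈ A, ∃ j, Γ p j) : RelAc K A.card (JJ Γ) ∅ := by
  classical
  induction A using Finset.induction_on generalizing Γ with
  | empty =>
    intro n hn
    simp at hn
  | insert p A hp ih =>
    have hcard : (insert p A).card = A.card + 1 := Finset.card_insert_of_notMem hp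
    have hempty : RelAc K A.card (JJ (restr31 Γ p ∅)) ∅ := by
      apply ih
      intro q hq
      obtain ⟨j, hj⟩ := hA q (Finset.mem_insert_of_mem hq)
      refine ⟨j, hj, fun h => ?_⟩
      exfalso
      rw [h] at hq
      exact hp hq
    have key : ∀ F : Finset ι, F.Nonempty → (∀ j ∈ F, Γ p j) →
        RelAc K (insert p A).card (JJ (restr31 Γ p F)) ∅ := by
      intro F
      induction F using Finset.induction_on with
      | empty =>
        intro h
        exact absurd h Finset.not_nonempty_empty
      | insert j F hj ihF =>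
        intro _ hF
        by_cases hne : F.Nonempty
        · rw [JJ_union31]
          have h1 := relAc_union K (insert p A).card (closed_JJ31 K hK (restr31 Γ p F))
            (closed_empty31 K) (closed_JJ31 K hK (restr31 Γ p {j})) (closed_empty31 K)
            (Set.empty_subset _) (Set.empty_subset _)
            (ihF hne (fun i hi => hF i (Finset.mem_insert_of_mem hi)))
            (relAc_single31 K hK Γ p j (hF j (Finset.mem_insert_self j F)) _)
            (by
              rw [JJ_inter31 Γ p F j hj, Set.empty_inter, hcard, Nat.add_sub_cancel]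
              exact hempty)
          rw [Set.union_empty] at h1
          exact h1
        · rw [Finset.not_nonempty_iff_eq_empty] at hne
          subst hne
          exact relAc_single31 K hK Γ p j (hF j (Finset.mem_insert_self j ∅)) _
    obtain ⟨j0, hj0⟩ := hA p (Finset.mem_insert_self p A)
    have h1 := key (univ.filter fun j => Γ p j) ⟨j0, by simp [hj0]⟩ (by simp)
    have h2 : JJ (restr31 Γ p (univ.filter fun j => Γ p j)) = JJ Γ := by
      ext S
      constructor
      · intro hS
        exact ⟨hS.1, fun q i hi => (hS.2 q i hi).1⟩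
      · intro hS
        refine ⟨hS.1, fun q i hi => ⟨hS.2 q i hi, fun hq => ?_⟩⟩
        rw [Finset.mem_filter]
        rw [← hq]
        exact ⟨Finset.mem_univ i, hS.2 q i hi⟩
    rw [h2] at h1
    exact h1

end Pool.Agent.DC
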